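import Pool.Agent.H14.Ent4

set_option autoImplicit false
open Finset

namespace Pool.Agent.Results.MP_f91407_an.Power

/-- Every entrywise map preserving all the classes `P_d` is a power function `c t^p` with `p ≥ 1`. -/
theorem result (F : ℝ → ℝ) (hF : ∀ t, 0 ≤ t → 0 ≤ F t) (h0 : F 0 = 0)
    (h : ∀ (d : ℕ) (a : ℕ → ℝ), (∀ j ≤ d, 0 ≤ a j) →
      (∀ z : ℂ, ∑ j ∈ range (d + 1), (a j : ℂ) * z ^ j = 0 → z.im = 0) →
      ∀ z : ℂ, ∑ j ∈ range (d + 1), (F (a j) : ℂ) * z ^ j = 0 → z.im = 0) :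
    ∃ c p : ℝ, 0 < c ∧ 1 ≤ p ∧ ∀ t, 0 ≤ t → F t = c * t ^ p := by
  rcases (Pool.Agent.H14.Ent.Pres.mk (fun t ht => hF t ht.le) fun n a ha hr =>
    Or.inr (h n a (fun j hj => (ha j hj).le) hr)).final with h1 | ⟨c, p, hc, hp, h1⟩
  · have := h 0 (fun _ => 1) (fun _ _ => zero_le_one) (fun z hz => by simp at hz) Complex.I
      (by simp [h1 1 one_pos])
    simp at this
  · refine ⟨c, p, hc, hp, fun t ht => ht.eq_or_lt.elim (fun e => ?_) (h1 t)⟩
    rw [← e, h0, Real.zero_rpow (by linarith), mul_zero]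

end Pool.Agent.Results.MP_f91407_an.Power
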